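import Pool.Agent.Y31.GG.Rat1
import Pool.Agent.Y377.IL.Stm

/-!
# Entire functions which are integral over the exponential polynomials
-/

set_option autoImplicit false

namespace Pool.Agent.Y655.IL

open Filter Topology Set Complex
open Pool.Agent.Y377.IL (EP S_EC)

/-- the growth condition -/
def Gro (a : ℂ → ℂ) (C c : ℝ) : Prop := 0 ≤ C ∧ 0 ≤ c ∧ ∀ z, ‖a z‖ ≤ C * Real.exp (c * |z.re|)

theorem Gro.mono {a : ℂ → ℂ} {C c C' c' : ℝ} (h : Gro a C c) (hC : C ≤ C') (hc : c ≤ c') :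
    Gro a C' c' := by
  obtain ⟨h1, h2, h3⟩ := h
  refine ⟨h1.trans hC, h2.trans hc, fun z => (h3 z).trans ?_⟩
  have := abs_nonneg z.re
  have h4 : 0 ≤ C' := h1.trans hC
  gcongr

theorem Gro.add {a b : ℂ → ℂ} {C c C' c' : ℝ} (h : Gro a C c) (h' : Gro b C' c') :
    Gro (a + b) (C + C') (c + c') := by
  have h1 := (h.mono le_rfl (by linarith [h'.2.1] : c ≤ c + c')).2.2
  have h2 := (h'.mono le_rfl (by linarith [h.2.1] : c' ≤ c + c')).2.2
  refine ⟨add_nonneg h.1 h'.1, add_nonneg h.2.1 h'.2.1, fun z => ?_⟩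
  rw [Pi.add_apply, add_mul]
  exact (norm_add_le _ _).trans (add_le_add (h1 z) (h2 z))

theorem Gro.mul {a b : ℂ → ℂ} {C c C' c' : ℝ} (h : Gro a C c) (h' : Gro b C' c') :
    Gro (a * b) (C * C') (c + c') := by
  refine ⟨mul_nonneg h.1 h'.1, add_nonneg h.2.1 h'.2.1, fun z => ?_⟩
  rw [Pi.mul_apply, norm_mul, add_mul, Real.exp_add]
  calc ‖a z‖ * ‖b z‖ ≤ (C * Real.exp (c * |z.re|)) * (C' * Real.exp (c' * |z.re|)) :=
        mul_le_mul (h.2.2 z) (h'.2.2 z) (norm_nonneg _) (mul_nonneg h.1 (Real.exp_pos _).le)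
    _ = _ := by ring

/-- the period -/
noncomputable def per (M : ℕ) : ℂ := (M : ℂ) * (2 * Real.pi * I)

theorem per_mul (M N : ℕ) : per (N * M) = (N : ℂ) * per M := by
  unfold per
  push_cast
  ring

/-- the elements of `EP` are periodic and grow at most exponentially -/
theorem EP_prop (a : ℂ → ℂ) (ha : a ∈ EP) :
    ∃ M : ℕ, 1 ≤ M ∧ Function.Periodic a (per M) ∧ ∃ C c : ℝ, Gro a C c := by
  unfold EP at ha
  induction ha using Algebra.adjoin_induction with
  | mem x hx =>
    obtain ⟨q, rfl⟩ := hx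
    refine ⟨q.den, q.den_pos, fun z => ?_, 1, |(q : ℝ)|, by norm_num, abs_nonneg _, fun z => ?_⟩
    · have h1 : (q : ℂ) * (q.den : ℂ) = q.num := by
        have := Rat.mul_den_eq_num q
        exact_mod_cast this
      have h2 : (q : ℂ) * (z + per q.den) = q * z + (q.num : ℂ) * (2 * Real.pi * I) := by
        unfold per
        rw [← h1]
        ring
      show Complex.exp ((q : ℂ) * (z + per q.den)) = Complex.exp (q * z)
      rw [h2, Complex.exp_add, Complex.exp_int_mul_two_pi_mul_I, mul_one]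
    · show ‖Complex.exp ((q : ℂ) * z)‖ ≤ _
      rw [Complex.norm_exp, one_mul]
      apply Real.exp_le_exp.2
      have : ((q : ℂ) * z).re = (q : ℝ) * z.re := by
        have e : (q : ℂ) = ((q : ℝ) : ℂ) := by push_cast; rfl
        rw [e, Complex.re_ofReal_mul]
      rw [this, ← abs_mul]
      exact le_abs_self _
  | algebraMap r =>
    refine ⟨1, le_rfl, fun z => rfl, ‖r‖, 0, norm_nonneg _, le_rfl, fun z => ?_⟩
    rw [zero_mul, Real.exp_zero, mul_one]
    exact le_of_eq rfl
  | add x y _ _ hx hy =>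
    obtain ⟨M, hM, hp, C, c, hg⟩ := hx
    obtain ⟨M', hM', hp', C', c', hg'⟩ := hy
    refine ⟨M' * M, Nat.mul_pos hM' hM, ?_, _, _, hg.add hg'⟩
    have h1 : Function.Periodic x (per (M' * M)) := by
      rw [per_mul]
      exact hp.nat_mul M'
    have h2 : Function.Periodic y (per (M' * M)) := by
      rw [mul_comm, per_mul]
      exact hp'.nat_mul M
    exact h1.add h2
  | mul x y _ _ hx hy =>
    obtain ⟨M, hM, hp, C, c, hg⟩ := hx
    obtain ⟨M', hM', hp', C', c', hg'⟩ := hy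
    refine ⟨M' * M, Nat.mul_pos hM' hM, ?_, _, _, hg.mul hg'⟩
    have h1 : Function.Periodic x (per (M' * M)) := by
      rw [per_mul]
      exact hp.nat_mul M'
    have h2 : Function.Periodic y (per (M' * M)) := by
      rw [mul_comm, per_mul]
      exact hp'.nat_mul M
    exact h1.mul h2

/-- the evaluation of exponential polynomials -/
noncomputable def ev (z : ℂ) : EP →+* ℂ := (Pi.evalRingHom (fun _ : ℂ => ℂ) z).comp EP.val.toRingHom

theorem ev_apply (z : ℂ) (a : EP) : ev z a = (a : ℂ → ℂ) z := rfl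

/-- the equation at a point -/
theorem eq_at {f : ℂ → ℂ} {p : Polynomial EP}
    (hp : Polynomial.eval₂ (algebraMap EP (ℂ → ℂ)) f p = 0) (z : ℂ) :
    Polynomial.eval₂ (ev z) (f z) p = 0 := by
  have h1 := congrFun hp z
  rw [Polynomial.eval₂_eq_sum_range, Finset.sum_apply] at h1
  rw [Polynomial.eval₂_eq_sum_range]
  exact h1

/-- bound of the roots -/
theorem root_bound {f : ℂ → ℂ} {p : Polynomial EP} (hm : p.Monic)
    (hp : Polynomial.eval₂ (algebraMap EP (ℂ → ℂ)) f p = 0) (z : ℂ) :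
    ‖f z‖ ≤ 1 + ∑ i ∈ Finset.range p.natDegree, ‖((p.coeff i : EP) : ℂ → ℂ) z‖ := by
  have h1 := eq_at hp z
  rw [Polynomial.eval₂_eq_sum_range, Finset.sum_range_succ] at h1
  have hc : p.coeff p.natDegree = 1 := hm
  rw [hc, map_one, one_mul] at h1
  by_contra hlt
  push Not at hlt
  have hS : 0 ≤ ∑ i ∈ Finset.range p.natDegree, ‖((p.coeff i : EP) : ℂ → ℂ) z‖ :=
    Finset.sum_nonneg fun i _ => norm_nonneg _
  have h2 : 1 < ‖f z‖ := by linarith
  rcases Nat.eq_zero_or_pos p.natDegree with h0 | h0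
  · rw [h0] at h1
    simp at h1
  · have h3 : f z ^ p.natDegree =
        -∑ i ∈ Finset.range p.natDegree, ev z (p.coeff i) * f z ^ i := by
      rw [eq_neg_iff_add_eq_zero, add_comm]
      exact h1
    have h4 : ‖f z‖ ^ p.natDegree ≤
        (∑ i ∈ Finset.range p.natDegree, ‖((p.coeff i : EP) : ℂ → ℂ) z‖) *
          ‖f z‖ ^ (p.natDegree - 1) := by
      rw [← norm_pow, h3, norm_neg, Finset.sum_mul]
      refine (norm_sum_le _ _).trans (Finset.sum_le_sum fun i hi => ?_)
      rw [norm_mul, norm_pow, ev_apply]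
      have := Finset.mem_range.1 hi
      refine mul_le_mul_of_nonneg_left ?_ (norm_nonneg _)
      exact pow_le_pow_right₀ h2.le (by omega)
    have h5 : ‖f z‖ ^ p.natDegree = ‖f z‖ * ‖f z‖ ^ (p.natDegree - 1) := by
      rw [← pow_succ']
      congr 1
      omega
    rw [h5] at h4
    have h6 := le_of_mul_le_mul_right h4 (by positivity)
    linarith

/-- the shifts by the periods are roots of the same polynomial -/
theorem pigeon {f : ℂ → ℂ} {p : Polynomial EP} (hm : p.Monic)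
    (hp : Polynomial.eval₂ (algebraMap EP (ℂ → ℂ)) f p = 0) {w : ℂ}
    (hw : ∀ i ≤ p.natDegree, Function.Periodic ((p.coeff i : EP) : ℂ → ℂ) w) (z : ℂ) :
    ∃ k l : Fin (p.natDegree + 1), k < l ∧ f (z + (k : ℕ) * w) = f (z + (l : ℕ) * w) := by
  classical
  have hroot : ∀ k : ℕ, (p.map (ev z)).IsRoot (f (z + k * w)) := by
    intro k
    rw [Polynomial.IsRoot, Polynomial.eval_map]
    have h1 := eq_at hp (z + k * w)
    rw [Polynomial.eval₂_eq_sum_range] at h1 ⊢
    rw [← h1]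
    refine Finset.sum_congr rfl fun i hi => ?_
    have hi' : i ≤ p.natDegree := by have := Finset.mem_range.1 hi; omega
    rw [ev_apply, ev_apply, (hw i hi').nat_mul k z]
  have hne : p.map (ev z) ≠ 0 := (hm.map _).ne_zero
  have hcard : (p.map (ev z)).roots.toFinset.card < (Finset.univ : Finset (Fin (p.natDegree + 1))).card := by
    rw [Finset.card_univ, Fintype.card_fin]
    refine Nat.lt_succ_of_le ((Multiset.toFinset_card_le _).trans ?_)
    refine (Polynomial.card_roots' _).trans ?_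
    rw [hm.natDegree_map]
  obtain ⟨k, _, l, _, hkl, he⟩ := Finset.exists_ne_map_eq_of_card_lt_of_maps_to hcard
    (f := fun k : Fin (p.natDegree + 1) => f (z + (k : ℕ) * w)) (fun k _ => by
      rw [Finset.mem_coe, Multiset.mem_toFinset, Polynomial.mem_roots hne]
      exact hroot k)
  rcases lt_or_gt_of_ne hkl with h | h
  · exact ⟨k, l, h, he⟩
  · exact ⟨l, k, h, he.symm⟩

/-- periodicity of entire integral functions -/
theorem exists_period {f : ℂ → ℂ} (hf : Differentiable ℂ f) {p : Polynomial EP} (hm : p.Monic)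
    (hp : Polynomial.eval₂ (algebraMap EP (ℂ → ℂ)) f p = 0) {w : ℂ}
    (hw : ∀ i ≤ p.natDegree, Function.Periodic ((p.coeff i : EP) : ℂ → ℂ) w) :
    ∃ N : ℕ, 1 ≤ N ∧ Function.Periodic f (N * w) := by
  classical
  obtain ⟨⟨⟨k, l⟩, hkl⟩, hi⟩ := nonempty_interior_of_iUnion_of_closed
    (f := fun i : {i : Fin (p.natDegree + 1) × Fin (p.natDegree + 1) // i.1 < i.2} =>
      {z : ℂ | f (z + (i.1.1 : ℕ) * w) = f (z + (i.1.2 : ℕ) * w)})
    (fun i => isClosed_eq (hf.continuous.comp (by fun_prop)) (hf.continuous.comp (by fun_prop)))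
    (by
      rw [eq_univ_iff_forall]
      intro z
      obtain ⟨k, l, hkl, he⟩ := pigeon hm hp hw z
      rw [mem_iUnion]
      exact ⟨⟨(k, l), hkl⟩, he⟩)
  obtain ⟨z0, hz0⟩ := hi
  simp only at hkl hz0
  have h1 : (fun z => f (z + (k : ℕ) * w)) =ᶠ[𝓝 z0] fun z => f (z + (l : ℕ) * w) :=
    mem_of_superset (mem_interior_iff_mem_nhds.1 hz0) (fun z hz => hz)
  have ha : ∀ j : ℕ, AnalyticOnNhd ℂ (fun z => f (z + (j : ℂ) * w)) univ := by
    intro j
    refine DifferentiableOn.analyticOnNhd ?_ isOpen_univ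
    exact (hf.comp (by fun_prop : Differentiable ℂ fun z : ℂ => z + (j : ℂ) * w)).differentiableOn
  have h2 := (ha k).eq_of_eventuallyEq (ha l) h1
  have hkl' : (k : ℕ) < (l : ℕ) := hkl
  refine ⟨(l : ℕ) - (k : ℕ), by omega, fun u => ?_⟩
  have h3 := congrFun h2 (u - (k : ℕ) * w)
  rw [sub_add_cancel] at h3
  rw [h3]
  congr 1
  rw [Nat.cast_sub hkl'.le]
  ring

/-! ### periodic functions of exponential growth -/

section

variable {g : ℂ → ℂ} (hg : Differentiable ℂ g) (hp : Function.Periodic g (2 * Real.pi * I))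

include hp in
theorem h_exp (z : ℂ) : g (Complex.log (Complex.exp z)) = g z := by
  have h1 : Complex.exp (Complex.log (Complex.exp z)) = Complex.exp z :=
    Complex.exp_log (Complex.exp_ne_zero z)
  obtain ⟨n, hn⟩ := Complex.exp_eq_exp_iff_exists_int.1 h1
  rw [hn]
  exact hp.int_mul n z

include hg hp in
theorem h_diff {u0 : ℂ} (hu : u0 ≠ 0) : DifferentiableAt ℂ (fun u => g (Complex.log u)) u0 := by
  have h1 : (fun u => g (Complex.log u)) =ᶠ[𝓝 u0]
      fun u => g (Complex.log (u / u0) + Complex.log u0) := by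
    filter_upwards [isOpen_ne.mem_nhds hu] with u hu'
    have h2 : Complex.exp (Complex.log (u / u0) + Complex.log u0) = u := by
      rw [Complex.exp_add, Complex.exp_log (div_ne_zero hu' hu), Complex.exp_log hu]
      field_simp
    rw [← h_exp hp (Complex.log (u / u0) + Complex.log u0), h2]
  refine DifferentiableAt.congr_of_eventuallyEq ?_ h1
  have h3 : DifferentiableAt ℂ (fun u : ℂ => Complex.log (u / u0) + Complex.log u0) u0 := by
    refine DifferentiableAt.add_const _ (DifferentiableAt.clog (by fun_prop) ?_)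
    rw [div_self hu]
    exact Complex.one_mem_slitPlane
  exact (hg _).comp u0 h3

end

/-- **periodic functions of exponential growth** -/
theorem laurent {g : ℂ → ℂ} (hg : Differentiable ℂ g)
    (hp : Function.Periodic g (2 * Real.pi * I)) {C : ℝ} {D : ℕ} (hG : Gro g C D) :
    ∃ P : Polynomial ℂ, ∀ z, g z = Complex.exp z ^ (-((D : ℤ) + 1)) * P.eval (Complex.exp z) := by
  obtain ⟨hC, -, hgr⟩ := hG
  obtain ⟨G, hGd⟩ : ∃ G : ℂ → ℂ, G = fun u => u ^ (D + 1) * g (Complex.log u) := ⟨_, rfl⟩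
  have hsmall : ∀ u : ℂ, ‖u‖ ≤ 1 → ‖G u‖ ≤ C * ‖u‖ := by
    intro u hu
    rw [hGd]
    simp only [norm_mul, norm_pow]
    rcases eq_or_ne u 0 with rfl | h0
    · simp
    · have hn : 0 < ‖u‖ := norm_pos_iff.2 h0
      have h1 := hgr (Complex.log u)
      rw [Complex.log_re, abs_of_nonpos (Real.log_nonpos hn.le hu)] at h1
      have h2 : Real.exp ((D : ℝ) * -Real.log ‖u‖) = (‖u‖ ^ D)⁻¹ := by
        rw [mul_neg, Real.exp_neg, ← Real.log_pow, Real.exp_log (by positivity)]
      rw [h2] at h1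
      calc ‖u‖ ^ (D + 1) * ‖g (Complex.log u)‖ ≤ ‖u‖ ^ (D + 1) * (C * (‖u‖ ^ D)⁻¹) := by gcongr
        _ = C * ‖u‖ := by
          rw [pow_succ]
          field_simp
  have hbig : ∀ u : ℂ, 1 < ‖u‖ → ‖G u‖ ≤ C * ‖u‖ ^ (2 * D + 1) := by
    intro u hu
    rw [hGd]
    simp only [norm_mul, norm_pow]
    have hn : 0 < ‖u‖ := by linarith
    have h1 := hgr (Complex.log u)
    rw [Complex.log_re, abs_of_nonneg (Real.log_nonneg hu.le)] at h1
    have h2 : Real.exp ((D : ℝ) * Real.log ‖u‖) = ‖u‖ ^ D := by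
      rw [← Real.log_pow, Real.exp_log (by positivity)]
    rw [h2] at h1
    calc ‖u‖ ^ (D + 1) * ‖g (Complex.log u)‖ ≤ ‖u‖ ^ (D + 1) * (C * ‖u‖ ^ D) := by gcongr
      _ = C * ‖u‖ ^ (2 * D + 1) := by ring
  have hG0 : G 0 = 0 := by rw [hGd]; simp
  have hcont : ContinuousAt G 0 := by
    rw [ContinuousAt, hG0]
    refine squeeze_zero_norm' (a := fun u : ℂ => C * ‖u‖) ?_ ?_
    · filter_upwards [Metric.ball_mem_nhds (0 : ℂ) one_pos] with u hu
      refine hsmall u ?_
      rw [mem_ball_zero_iff] at hu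
      exact hu.le
    · have : Tendsto (fun u : ℂ => C * ‖u‖) (𝓝 0) (𝓝 (C * ‖(0 : ℂ)‖)) :=
        (continuous_const.mul continuous_norm).tendsto 0
      simpa using this
  have hdiff : ∀ u : ℂ, u ≠ 0 → DifferentiableAt ℂ G u := by
    intro u hu
    rw [hGd]
    exact (differentiableAt_id.pow _).mul (h_diff hg hp hu)
  have hD : Differentiable ℂ G := by
    intro u
    rcases eq_or_ne u 0 with rfl | h0
    · refine (Complex.analyticAt_of_differentiable_on_punctured_nhds_of_continuousAt ?_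
        hcont).differentiableAt
      filter_upwards [self_mem_nhdsWithin] with v hv
      exact hdiff v hv
    · exact hdiff u h0
  obtain ⟨P, hP⟩ := Pool.Agent.Y31.GG.poly_of_growth (2 * D + 1) G hD ⟨C, 1, hbig⟩
  refine ⟨P, fun z => ?_⟩
  rw [← hP, hGd]
  simp only
  rw [h_exp hp, ← mul_assoc]
  have he := Complex.exp_ne_zero z
  have : Complex.exp z ^ (-((D : ℤ) + 1)) * Complex.exp z ^ (D + 1) = 1 := by
    rw [zpow_neg, show ((D : ℤ) + 1) = ((D + 1 : ℕ) : ℤ) by push_cast; rfl, zpow_natCast]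
    exact inv_mul_cancel₀ (pow_ne_zero _ he)
  rw [this, one_mul]

theorem exp_mem (q : ℚ) : (fun z : ℂ => Complex.exp (q * z)) ∈ EP :=
  Algebra.subset_adjoin ⟨q, rfl⟩

/-- **EC** -/
theorem t_EC : S_EC := by
  classical
  intro f hf hint
  obtain ⟨p, hm, hp⟩ := hint
  -- common data of the coefficients
  have hdata := fun i : ℕ => EP_prop ((p.coeff i : EP) : ℂ → ℂ) (p.coeff i).2
  choose M hM hper C c hgr using hdata
  obtain ⟨M0, hM0⟩ : ∃ M0, M0 = ∏ i ∈ Finset.range (p.natDegree + 1), M i := ⟨_, rfl⟩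
  have hM01 : 1 ≤ M0 := by
    rw [hM0]
    have : 0 < ∏ i ∈ Finset.range (p.natDegree + 1), M i :=
      Finset.prod_pos fun i _ => Nat.lt_of_lt_of_le Nat.zero_lt_one (hM i)
    exact this
  have hw : ∀ i ≤ p.natDegree, Function.Periodic ((p.coeff i : EP) : ℂ → ℂ) (per M0) := by
    intro i hi
    obtain ⟨N, hN⟩ : M i ∣ M0 := by
      rw [hM0]
      exact Finset.dvd_prod_of_mem _ (Finset.mem_range.2 (by omega))
    rw [hN, mul_comm, per_mul]
    exact (hper i).nat_mul N
  obtain ⟨N, hN, hfp⟩ := exists_period hf hm hp hw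
  rw [← per_mul] at hfp
  obtain ⟨R, hR⟩ : ∃ R, R = N * M0 := ⟨_, rfl⟩
  rw [← hR] at hfp
  have hR1 : 1 ≤ R := by rw [hR]; exact Nat.mul_pos hN hM01
  have hRc : (R : ℂ) ≠ 0 := by
    have : R ≠ 0 := by omega
    exact_mod_cast this
  -- growth
  obtain ⟨C', hC'⟩ : ∃ C', C' = ∑ i ∈ Finset.range p.natDegree, C i := ⟨_, rfl⟩
  obtain ⟨c', hc'⟩ : ∃ c', c' = ∑ i ∈ Finset.range p.natDegree, c i := ⟨_, rfl⟩
  have hfg : Gro f (1 + C') c' := by
    have hC0 : 0 ≤ C' := by
      rw [hC']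
      exact Finset.sum_nonneg fun i _ => (hgr i).1
    have hc0 : 0 ≤ c' := by
      rw [hc']
      exact Finset.sum_nonneg fun i _ => (hgr i).2.1
    refine ⟨by linarith, hc0, fun z => (root_bound hm hp z).trans ?_⟩
    rw [add_mul, one_mul, hC', Finset.sum_mul]
    refine add_le_add (Real.one_le_exp (mul_nonneg hc0 (abs_nonneg _))) ?_
    refine Finset.sum_le_sum fun i hi => ?_
    have h1 : c i ≤ c' := by
      rw [hc']
      exact Finset.single_le_sum (fun j _ => (hgr j).2.1) hi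
    exact ((hgr i).mono le_rfl h1).2.2 z
  -- rescaling
  obtain ⟨D, hD⟩ := exists_nat_ge (c' * R)
  obtain ⟨g, hgd⟩ : ∃ g : ℂ → ℂ, g = fun z => f (R * z) := ⟨_, rfl⟩
  have hg1 : Differentiable ℂ g := by
    rw [hgd]
    exact hf.comp (by fun_prop)
  have hg2 : Function.Periodic g (2 * Real.pi * I) := by
    intro z
    rw [hgd]
    show f (R * (z + 2 * Real.pi * I)) = f (R * z)
    rw [mul_add]
    exact hfp _
  have hg3 : Gro g (1 + C') D := by
    refine ⟨hfg.1, Nat.cast_nonneg _, fun z => ?_⟩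
    rw [hgd]
    refine (hfg.2.2 _).trans ?_
    have h1 : ((R : ℂ) * z).re = R * z.re := by
      have e : (R : ℂ) = ((R : ℝ) : ℂ) := by push_cast; rfl
      rw [e, Complex.re_ofReal_mul]
    rw [h1, abs_mul, abs_of_nonneg (Nat.cast_nonneg R)]
    have h2 := hfg.1
    have h3 := abs_nonneg z.re
    have h4 : c' * (R * |z.re|) ≤ D * |z.re| := by
      rw [← mul_assoc]
      gcongr
    gcongr
  obtain ⟨P, hP⟩ := laurent hg1 hg2 hg3
  have hfe : f = (fun z : ℂ => Complex.exp (((-((D : ℚ) + 1) / R : ℚ) : ℂ) * z)) *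
      ∑ j ∈ Finset.range (P.natDegree + 1),
        P.coeff j • (fun z : ℂ => Complex.exp (((j : ℚ) / R : ℚ) * z)) := by
    funext z
    have h1 : f z = g (z / R) := by
      rw [hgd]
      show f z = f (R * (z / R))
      congr 1
      field_simp
    rw [h1, hP, Polynomial.eval_eq_sum_range, Pi.mul_apply, Finset.sum_apply]
    congr 1
    · rw [← Complex.exp_int_mul]
      congr 1
      push_cast
      field_simp
    · refine Finset.sum_congr rfl fun j _ => ?_
      rw [Pi.smul_apply, smul_eq_mul, ← Complex.exp_nat_mul]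
      congr 2
      push_cast
      field_simp
  rw [hfe]
  refine mul_mem (exp_mem _) (sum_mem fun j _ => ?_)
  exact Subalgebra.smul_mem _ (exp_mem _) _

end Pool.Agent.Y655.IL
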